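import Pool.Agent.BMM.FMin
import Pool.Agent.BMM.FTr
import Pool.Agent.BMM.FQ

/-!
# MP_e76fc4_an, Q1: a block-minimal Banach space whose isomorphism relation is meager

There is a real Banach space with a Schauder basis which is block-minimal and for which `Is` is
meager in `b(X)²`, for every countable field `Q` containing the norms of its finite combinations of the
basis (and such fields exist).

The definitions are in `Pool/Agent/EBM/Defs.lean`; `_root_.SchauderBasis` is Mathlib's definition.
-/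

namespace Pool.Agent.Results.MP_e76fc4_an.BlockMinimalMeagerIs

open Pool.Agent.EBM

theorem result : ∃ (X : Type) (_ : NormedAddCommGroup X) (_ : NormedSpace ℝ X)
    (_ : CompleteSpace X) (b : _root_.SchauderBasis ℝ X),
    BlockMinimal ℝ b.basis ∧
    (∃ Q : Subfield ℝ, Countable Q ∧
      ∀ c : ℕ →₀ ℝ, (∀ i, c i ∈ Q) → ‖vec b.basis c‖ ∈ Q) ∧
    ∀ Q : Subfield ℝ, Countable Q →
      (∀ c : ℕ →₀ ℝ, (∀ i, c i ∈ Q) → ‖vec b.basis c‖ ∈ Q) → IsMeagre (IsRel b.basis Q) := by
  obtain ⟨b, hb⟩ := BMM.basis_XX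
  refine ⟨BMM.XX, inferInstance, inferInstance, inferInstance, b, ?_, BMM.exists_Q _, ?_⟩
  · rw [hb]
    exact BMM.blockMinimal_eX
  · rw [hb]
    intro Q _ hQ
    exact BMM.isMeagre_IsRel Q hQ

end Pool.Agent.Results.MP_e76fc4_an.BlockMinimalMeagerIs
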