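import Pool.Agent.EBM.UC

/-!
# MP_e76fc4_an: equivalence block minimal bases have a comeager isomorphism relation

If every block sequence of the Schauder basis `b` has a further block sequence equivalent to `b`,
then `b` is block minimal and the isomorphism relation on the space of block sequences is
comeager, in particular not meager.

The definitions are in `Pool/Agent/EBM/Defs.lean`; `_root_.SchauderBasis` is Mathlib's definition.
-/

namespace Pool.Agent.Results.MP_e76fc4_an.EquivalenceBlockMinimal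

open Pool.Agent.EBM

theorem result {𝕜 : Type*} [RCLike 𝕜] {X : Type*} [NormedAddCommGroup X] [NormedSpace 𝕜 X]
    [CompleteSpace X] (b : _root_.SchauderBasis 𝕜 X)
    (Q : Subfield 𝕜) (hQc : Countable Q) (hQI : RCLike.I ∈ Q)
    (hQn : ∀ c : ℕ →₀ 𝕜, (∀ i, c i ∈ Q) → ((‖vec b.basis c‖ : ℝ) : 𝕜) ∈ Q)
    (hmin : ∀ c : ℕ → (ℕ →₀ 𝕜), Block c → ∃ d : ℕ → (ℕ →₀ 𝕜), Block d ∧
      Equivalent 𝕜 (seqOf (seqOf b.basis c) d) b.basis) :
    BlockMinimal 𝕜 b.basis ∧ IsRel b.basis Q ∈ residual (bX b.basis Q × bX b.basis Q) ∧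
      ¬ IsMeagre (IsRel b.basis Q) :=
  main_theorem2 b Q hQc hQI hQn hmin

end Pool.Agent.Results.MP_e76fc4_an.EquivalenceBlockMinimal
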